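import Pool.Agent.Helper46.NU.Names

/-!
# What a null set with small support does not contain
-/

open MeasureTheory Filter Topology Set

noncomputable section

namespace NU.PkAVO

open Pool.Agent.Helper97.Ku

theorem nul_mono {S : Sys} {K K' : Set (Pt S)} (h : K' ⊆ K) (hK : Nul S K) : Nul S K' := by
  refine hK.mono fun φ hφ => ?_
  refine le_antisymm ?_ (zero_le)
  rw [← hφ]
  exact measure_mono fun ω hω => h hω

open Classical in
theorem card_eq (F : Set (Finset ℕ)) (n : ℕ) : {t ∈ F | LastN t n}.ncard =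
    ∑ t ∈ (Finset.range (n + 1)).powerset, if (t ∈ F ∧ LastN t n) then 1 else 0 := by
  rw [← Finset.card_filter, ← Set.ncard_coe_finset]
  congr 1
  ext t
  simp only [Set.mem_setOf_eq, Finset.coe_filter, Finset.mem_powerset]
  constructor
  · rintro ⟨h1, h2⟩
    refine ⟨fun m hm => ?_, h1, h2⟩
    have := h2.2 m hm
    rw [Finset.mem_range]
    omega
  · rintro ⟨-, h1, h2⟩
    exact ⟨h1, h2⟩

variable {S : Sys}

theorem meas_good (k : ℕ) (F : Pt S → Set (Finset ℕ)) (hF : ∀ t, MeasurableSet {z | t ∈ F z}) :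
    MeasurableSet {z | Good k (F z)} := by
  classical
  have hF' : ∀ t, Measurable fun z => t ∈ F z := fun t => measurableSet_setOf.1 (hF t)
  have h1 : MeasurableSet {z | ∀ t, t ∈ F z → t.Nonempty} :=
    measurableSet_setOf.2 (Measurable.forall fun t => (hF' t).imp measurable_const)
  have h2 : MeasurableSet {z | ∀ t t' n, t ∈ F z → LastN t n → LastN t' (n + 1) →
      (∀ m < n, (m ∈ t ↔ m ∈ t')) → t' ∈ F z} :=
    measurableSet_setOf.2 (Measurable.forall fun t => Measurable.forall fun t' =>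
      Measurable.forall fun n => (hF' t).imp (measurable_const.imp (measurable_const.imp
        (measurable_const.imp (hF' t')))))
  have h3 : MeasurableSet {z | ∀ n, {t ∈ F z | LastN t n}.ncard * 2 ^ k ≤ 2 ^ n} := by
    refine measurableSet_setOf.2 (Measurable.forall fun n => ?_)
    have h4 : Measurable fun z => {t ∈ F z | LastN t n}.ncard := by
      simp only [card_eq]
      refine Finset.measurable_sum _ fun t _ => ?_
      exact Measurable.ite (measurableSet_setOf.2 ((hF' t).and measurable_const))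
        measurable_const measurable_const
    exact measurableSet_setOf.1 (measurableSet_preimage (t := {m : ℕ | m * 2 ^ k ≤ 2 ^ n}) h4
      MeasurableSet.of_discrete)
  have h5 : {z | Good k (F z)} = {z | ∀ t, t ∈ F z → t.Nonempty} ∩
      ({z | ∀ t t' n, t ∈ F z → LastN t n → LastN t' (n + 1) →
      (∀ m < n, (m ∈ t ↔ m ∈ t')) → t' ∈ F z} ∩
      {z | ∀ n, {t ∈ F z | LastN t n}.ncard * 2 ^ k ≤ 2 ^ n}) := by
    ext z
    exact ⟨fun h => ⟨h.ne, h.mono, h.card⟩, fun h => ⟨h.1, h.2.1, h.2.2⟩⟩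
  rw [h5]
  exact h1.inter (h2.inter h3)

theorem meas_cyl (t : Finset ℕ) : MeasurableSet {x : ℕ → Bool | Cyl t x} := by
  refine measurableSet_setOf.2 (Measurable.exists fun n => measurable_const.and
    (Measurable.forall fun m => measurable_const.imp ?_))
  exact measurableSet_setOf.1 (measurableSet_preimage (t := {b : Bool | (b = true ↔ m ∈ t)})
    (measurable_pi_apply m) MeasurableSet.of_discrete)

theorem meas_open (F : Pt S → Set (Finset ℕ)) (hF : ∀ t, MeasurableSet {z | t ∈ F z})
    (w : Pt S → ℕ → Bool) (hw : Measurable w) : MeasurableSet {z | w z ∈ OpenOf (F z)} := by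
  have h : {z | w z ∈ OpenOf (F z)} = ⋃ t, ({z | t ∈ F z} ∩ w ⁻¹' {x | Cyl t x}) := by
    ext z
    simp [OpenOf]
  rw [h]
  exact MeasurableSet.iUnion fun t => (hF t).inter (hw (meas_cyl t))

theorem avo (ehom : G_EHOM) (sup : G_SUP) (dom : G_DOM) (rnd : G_RND) (nsn : G_NSN)
    (nu1 : G_NU1) : G_AVO := by
  intro S L _ e he M
  obtain ⟨F, hF, hG, hO⟩ := nu1 S L e he M
  obtain ⟨-, h0, -, hcompl, hinf, hcount, hbot⟩ := ehom S L e he
  obtain ⟨f, hf⟩ := exists_surjective_nat (ℕ × Finset ℕ)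
  obtain ⟨Γ, hΓc, hΓ⟩ := sup S (fun i => {z | (f i).2 ∈ F (f i).1 z}) fun i => hF _ _
  have hagree : ∀ k z z', (∀ c ∈ Γ, z c = z' c) → F k z = F k z' := by
    intro k z z' h
    ext t
    obtain ⟨i, hi⟩ := hf (k, t)
    have := hΓ z z' h i
    simpa [hi] using this
  refine ⟨Γ, hΓc, ?_, ?_⟩
  · intro ξ hξ hgen hsee
    obtain ⟨w, hw, hN⟩ := dom S ξ hgen hsee (F 1) (hF 1) Γ hξ (hagree 1)
    obtain ⟨-, hns⟩ := nsn S L e he (fun z => z ξ) (measurable_pi_apply ξ)
    have hns' := hns w hw
    set A : Set (Pt S) := {z | w z ∈ OpenOf (F 1 z)} with hA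
    set B : Set (Pt S) := {z | w z ∈ Nset (z ξ)} with hB
    set G : Set (Pt S) := {z | Good 1 (F 1 z)} with hGd
    have hAm : MeasurableSet A := meas_open _ (hF 1) w hw
    have hGm : MeasurableSet G := meas_good 1 _ (hF 1)
    set a := nullV omN M ⊓ subV (NsN e fun z => z ξ) M with ha
    have h1 : a ≤ e G := inf_le_left.trans (hG 1)
    have h2 : e G ≤ e Aᶜ := (he.le _ _ hGm hAm.compl).2 (nul_mono (by
      rintro z ⟨hz1, hz2⟩
      exact ⟨hz1, fun h => hz2 h.1⟩) hN)
    have hNs : ∀ x : ℕ → Bool, MeasurableSet {z : Pt S | w z ∈ Nset (z ξ)} := by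
      intro _
      have hblk : ∀ m, Measurable fun z : Pt S => (w z m = z ξ m) := by
        intro m
        refine measurableSet_setOf.1 (measurableSet_eq_fun ?_ ?_)
        · exact (measurable_pi_apply m).comp hw
        · exact (measurable_pi_apply m).comp (measurable_pi_apply ξ)
      have : {z : Pt S | w z ∈ Nset (z ξ)} =
          {z | ∀ N : ℕ, ∃ n, N ≤ n ∧ ∀ m, m ∈ blk n → w z m = z ξ m} := by
        ext z
        simp only [Nset, Set.mem_setOf_eq, Filter.frequently_atTop]
      rw [this]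
      exact measurableSet_setOf.2 (Measurable.forall fun N => Measurable.exists fun n =>
        measurable_const.and (Measurable.forall fun m => measurable_const.imp (hblk m)))
    have hBm : MeasurableSet B := hNs fun _ => true
    have h3 : e G ≤ e B := (he.le _ _ hGm hBm).2 (nul_mono (by
      rintro z ⟨hz1, hz2⟩
      exact ⟨hz1, fun h => hz2 h.2⟩) hN)
    have h4 : a ≤ (rnN e w).mem M := by
      have h5 : a ≤ (rnN e w).mem (NsN e fun z => z ξ) := by
        rw [hns']
        exact h1.trans h3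
      have h6 : a ≤ ((rnN e w).mem (NsN e fun z => z ξ) ⇨ (rnN e w).mem M) :=
        inf_le_right.trans (iInf_le _ (rnN e w))
      exact (le_inf h6 h5).trans himp_inf_le
    have h7 : a ≤ e A := (le_inf inf_le_left h4).trans (hO w hw 1)
    have h8 : a ≤ (e A)ᶜ := by
      rw [← hcompl A hAm]
      exact h1.trans h2
    rw [eq_bot_iff]
    calc a ≤ e A ⊓ (e A)ᶜ := le_inf h7 h8
      _ = ⊥ := inf_compl_self _
  · intro c₀ hng hc₀
    set a := nullV omN M ⊓ (rnN e fun z => z c₀).mem M with ha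
    have hw : Measurable fun z : Pt S => z c₀ := measurable_pi_apply c₀
    have h1 : ∀ k, a ≤ e ({z | Good k (F k z)} ∩ {z | z c₀ ∈ OpenOf (F k z)}) := by
      intro k
      rw [(hinf _ _ (meas_good k _ (hF k)) (meas_open _ (hF k) _ hw)).1]
      exact le_inf (inf_le_left.trans (hG k)) (hO _ hw k)
    have h2 : a ≤ e (⋂ k, ({z | Good k (F k z)} ∩ {z | z c₀ ∈ OpenOf (F k z)})) := by
      rw [(hcount ℕ _ fun k => (meas_good k _ (hF k)).inter (meas_open _ (hF k) _ hw)).2]
      exact le_iInf h1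
    have h3 := rnd S c₀ hng F hF Γ hc₀ hagree
    have h4 : (⋂ k, ({z | Good k (F k z)} ∩ {z | z c₀ ∈ OpenOf (F k z)})) =
        {z : Pt S | ∀ k, Good k (F k z) ∧ z c₀ ∈ OpenOf (F k z)} := by
      ext z
      simp
    rw [h4] at h2
    have h5 : MeasurableSet {z : Pt S | ∀ k, Good k (F k z) ∧ z c₀ ∈ OpenOf (F k z)} := by
      rw [← h4]
      exact MeasurableSet.iInter fun k => (meas_good k _ (hF k)).inter (meas_open _ (hF k) _ hw)
    rw [((hbot _ h5).1).2 h3] at h2
    exact le_bot_iff.1 h2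

end NU.PkAVO
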